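import Pool.Agent.Lib.MP_a50f86_an.Core

set_option autoImplicit false

/-!
# Extremal conformal harmonic discs in convex domains are not unique

In a smoothly bounded bounded convex domain of `ℝ³` there is a frame at a point for which every
extremal disc has a different extremal disc beside it.
-/

namespace Pool.Agent.Results.MP_a50f86_an.NoUniqueDisc

/-- The open unit disc. -/
def Disc : Set ℂ := Metric.ball 0 1

/-- The partial derivative `f_x` of a map of the plane. -/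
noncomputable def dx {n : ℕ} (f : ℂ → EuclideanSpace ℝ (Fin n)) (z : ℂ) :
    EuclideanSpace ℝ (Fin n) := fderiv ℝ f z 1

/-- The partial derivative `f_y` of a map of the plane. -/
noncomputable def dy {n : ℕ} (f : ℂ → EuclideanSpace ℝ (Fin n)) (z : ℂ) :
    EuclideanSpace ℝ (Fin n) := fderiv ℝ f z Complex.I

/-- `(u, v)` is a conformal frame. -/
def Frame {n : ℕ} (u v : EuclideanSpace ℝ (Fin n)) : Prop := ‖u‖ = ‖v‖ ∧ inner ℝ u v = 0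

/-- `Ω` is a bounded convex domain with smooth boundary. -/
def SmoothConvexDomain {n : ℕ} (Ω : Set (EuclideanSpace ℝ (Fin n))) : Prop :=
  IsOpen Ω ∧ Ω.Nonempty ∧ Bornology.IsBounded Ω ∧ Convex ℝ Ω ∧
    ∃ (U : Set (EuclideanSpace ℝ (Fin n))) (ρ : EuclideanSpace ℝ (Fin n) → ℝ),
      IsOpen U ∧ closure Ω ⊆ U ∧ ContDiffOn ℝ ((⊤ : ℕ∞) : WithTop ℕ∞) ρ U ∧
        Ω = {x | x ∈ U ∧ ρ x < 0} ∧ ∀ x ∈ frontier Ω, fderiv ℝ ρ x ≠ 0

/-- `CH(𝔻, Ω)`: the conformal harmonic maps of the disc to `Ω`. -/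
def CHD {n : ℕ} (Ω : Set (EuclideanSpace ℝ (Fin n))) : Set (ℂ → EuclideanSpace ℝ (Fin n)) :=
  {f | ContDiffOn ℝ 2 f Disc ∧ (∀ z ∈ Disc, f z ∈ Ω) ∧ (∀ z ∈ Disc, Frame (dx f z) (dy f z)) ∧
    ∀ z ∈ Disc, dx (dx f) z + dy (dy f) z = 0}

/-- `f(0) = p`, `f_x(0) = r u`, `f_y(0) = r v`. -/
def Fits {n : ℕ} (p u v : EuclideanSpace ℝ (Fin n)) (r : ℝ) (f : ℂ → EuclideanSpace ℝ (Fin n)) :
    Prop := f 0 = p ∧ dx f 0 = r • u ∧ dy f 0 = r • v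

/-- `M_Ω(p, (u, v))`. -/
noncomputable def metricM {n : ℕ} (Ω : Set (EuclideanSpace ℝ (Fin n)))
    (p u v : EuclideanSpace ℝ (Fin n)) : ℝ :=
  sInf {t | ∃ r : ℝ, 0 < r ∧ t = 1 / r ∧ ∃ f ∈ CHD Ω, Fits p u v r f}

/-- `f` is an extremal disc for `(p, (u, v))`. -/
def IsExtremal {n : ℕ} (Ω : Set (EuclideanSpace ℝ (Fin n))) (p u v : EuclideanSpace ℝ (Fin n))
    (f : ℂ → EuclideanSpace ℝ (Fin n)) : Prop :=
  f ∈ CHD Ω ∧ ∃ r : ℝ, 0 < r ∧ r = 1 / metricM Ω p u v ∧ Fits p u v r f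

open Pool.Agent.Lib.MP_a50f86_an

theorem mem_CHD (f : ℂ → EuclideanSpace ℝ (Fin 3)) : f ∈ CHD Om ↔ CH f := Iff.rfl

theorem isExtremal_iff (f : ℂ → EuclideanSpace ℝ (Fin 3)) :
    IsExtremal Om 0 e0 e1 f ↔ IsExt f := by
  have hbdd : BddBelow {t | ∃ r : ℝ, 0 < r ∧ t = 1 / r ∧
      ∃ f ∈ CHD Om, Fits (0 : EuclideanSpace ℝ (Fin 3)) e0 e1 r f} := by
    refine ⟨0, ?_⟩
    rintro _ ⟨r, hr, rfl, -⟩
    positivity
  constructor
  · rintro ⟨hf, r, hr, hrM, h0, h1, h2⟩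
    refine ⟨r, hr, (mem_CHD f).1 hf, h0, h1, h2, ?_⟩
    intro g s hs hg g0 g1 g2
    have h3 : metricM Om 0 e0 e1 ≤ 1 / s :=
      csInf_le hbdd ⟨s, hs, rfl, g, (mem_CHD g).2 hg, g0, g1, g2⟩
    have h4 : metricM Om 0 e0 e1 = 1 / r := by
      rw [hrM, one_div_one_div]
    rw [h4] at h3
    exact (one_div_le_one_div hr hs).1 h3
  · rintro ⟨r, hr, hf, h0, h1, h2, hmax⟩
    refine ⟨(mem_CHD f).2 hf, r, hr, ?_, h0, h1, h2⟩
    have h4 : metricM Om 0 e0 e1 = 1 / r := by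
      refine le_antisymm (csInf_le hbdd ⟨r, hr, rfl, f, (mem_CHD f).2 hf, h0, h1, h2⟩) ?_
      refine le_csInf ⟨_, r, hr, rfl, f, (mem_CHD f).2 hf, h0, h1, h2⟩ ?_
      rintro _ ⟨s, hs, rfl, g, hg, g0, g1, g2⟩
      exact one_div_le_one_div_of_le hs (hmax g s hs ((mem_CHD g).1 hg) g0 g1 g2)
    rw [h4, one_div_one_div]

theorem result : ∃ Ω : Set (EuclideanSpace ℝ (Fin 3)), SmoothConvexDomain Ω ∧
    ∃ p ∈ Ω, ∃ u v : EuclideanSpace ℝ (Fin 3), Frame u v ∧ (u, v) ≠ (0, 0) ∧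
      ∀ f, IsExtremal Ω p u v f → ∃ g, IsExtremal Ω p u v g ∧ ∃ z ∈ Disc, g z ≠ f z := by
  have hp0 : (0 : EuclideanSpace ℝ (Fin 3)) ∈ Om := by
    show rho 0 < 0
    simp [rho]
  refine ⟨Om, ⟨isOpen_Om, ⟨0, hp0⟩, bounded_Om, convex_Om, smooth_Om⟩, 0, hp0, e0, e1, ⟨?_, ?_⟩,
    ?_, ?_⟩
  · simp [e0, e1]
  · simp [e0, e1, PiLp.inner_apply]
  · intro h
    have h1 := congrArg Prod.fst h
    simp [e0] at h1
  · intro f hf
    by_contra hcon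
    push Not at hcon
    refine no_unique_ext f ((isExtremal_iff f).1 hf) fun h hh z hz => ?_
    exact hcon h ((isExtremal_iff h).2 hh) z hz

end Pool.Agent.Results.MP_a50f86_an.NoUniqueDisc
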